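import Pool.Agent.Y262.EG.Stm

/-!
# Project EG: the curvature on the unit tangent bundle
-/

set_option autoImplicit false

open Set Filter Topology MeasureTheory
open scoped ContDiff

noncomputable section

namespace Pool.Agent.Y117.EG

open Pool.Agent.Y262.EG

lemma norm_HH (φ : ℂ → ℝ) (p : Y) : ‖(HH φ p).1‖ = Real.exp (-φ p.1) := by
  refine (sq_eq_sq₀ (norm_nonneg _) (Real.exp_pos _).le).mp ?_
  rw [Complex.sq_norm, Complex.normSq_apply]
  unfold HH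
  simp only
  have h := Real.sin_sq_add_cos_sq p.2
  calc -(Real.exp (-φ p.1) * Real.sin p.2) * -(Real.exp (-φ p.1) * Real.sin p.2) +
        Real.exp (-φ p.1) * Real.cos p.2 * (Real.exp (-φ p.1) * Real.cos p.2)
      = Real.exp (-φ p.1) ^ 2 * (Real.sin p.2 ^ 2 + Real.cos p.2 ^ 2) := by ring
    _ = Real.exp (-φ p.1) ^ 2 := by rw [h, mul_one]

theorem kPt : StFrame → StEt → StDWP → StKP := by
  intro hF hE hD M P _ _ _ _ Ω φ pr q L δ δ' κ C g hU hC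
  obtain ⟨-, -, hcv, -⟩ := hF Ω φ hU.opn hU.smooth
  obtain ⟨-, -, hE3⟩ := hE M P Ω φ pr q hU
  obtain ⟨hl, -, hdw⟩ := hD M P Ω φ pr q hU
  have hYO : IsOpen (YO Ω) := hU.opn.preimage continuous_fst
  have hkq : ∀ p ∈ YO Ω, kP Ω φ q (q p) = -curv φ p.1 := by
    intro p hp
    obtain ⟨U, A, hUo, hpU, hUs, hA, hAp, hAy⟩ :=
      hE3 p hp (lft Ω q (q p)) (hl (q p)).1 (hl (q p)).2.symm
    have h1 := (hAy p hpU).2.2.1
    unfold kP
    rw [← hAp, h1]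
  have hAc : AcP Ω q (kP Ω φ q) := by
    unfold AcP
    have h1 : ContDiffOn ℝ 1 (fun p : Y => -curv φ p.1) (YO Ω) := by
      have h2 : ContDiffOn ℝ ∞ (fun p : Y => curv φ p.1) (YO Ω) :=
        hcv.comp contDiff_fst.contDiffOn (fun p hp => hp)
      exact (h2.of_le (by exact_mod_cast le_top)).neg
    exact h1.congr hkq
  have hd : ∀ W, Fr φ W → ∀ p ∈ YO Ω, dW Ω q W (kP Ω φ q) (q p) =
      -fderiv ℝ (curv φ) p.1 (W p).1 := by
    intro W hW p hp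
    rw [((hdw _ hAc).2 W hW).1 p hp]
    have h1 : (fun p => kP Ω φ q (q p)) =ᶠ[𝓝 p] fun p : Y => -curv φ p.1 := by
      filter_upwards [hYO.mem_nhds hp] with y hy
      exact hkq y hy
    rw [h1.fderiv_eq]
    have h2 : DifferentiableAt ℝ (curv φ) p.1 :=
      (hcv.contDiffAt (hU.opn.mem_nhds hp)).differentiableAt (by simp)
    have h3 : HasFDerivAt (fun p : Y => -curv φ p.1)
        (-((fderiv ℝ (curv φ) p.1).comp (ContinuousLinearMap.fst ℝ ℂ ℝ))) p :=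
      (h2.hasFDerivAt.comp p hasFDerivAt_fst).neg
    rw [h3.fderiv]
    simp
  have hsur : ∀ x : P, ∃ p ∈ YO Ω, q p = x := fun x => ⟨lft Ω q x, (hl x).1, (hl x).2⟩
  refine ⟨fun p hp => ⟨hkq p hp, hd _ (Or.inr (Or.inl rfl)) p hp⟩, hAc, fun x => ?_, fun x => ?_,
    fun x => ?_⟩
  · obtain ⟨p, hp, rfl⟩ := hsur x
    rw [hkq p hp]
    have := hC.neg p.1 hp
    linarith
  · obtain ⟨p, hp, rfl⟩ := hsur x
    rw [hd _ (Or.inr (Or.inr rfl)) p hp]
    simp [VV]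
  · obtain ⟨p, hp, rfl⟩ := hsur x
    rw [hd _ (Or.inr (Or.inl rfl)) p hp, hkq p hp, abs_neg]
    have h1 := hC.der p.1 hp
    have h2 : |fderiv ℝ (curv φ) p.1 (HH φ p).1| ≤ ‖fderiv ℝ (curv φ) p.1‖ * ‖(HH φ p).1‖ :=
      (fderiv ℝ (curv φ) p.1).le_opNorm _
    rw [norm_HH] at h2
    have h3 : |curv φ p.1| = -curv φ p.1 := abs_of_nonpos (hC.neg p.1 hp)
    rw [← h3]
    calc |fderiv ℝ (curv φ) p.1 (HH φ p).1|
        ≤ ‖fderiv ℝ (curv φ) p.1‖ * Real.exp (-φ p.1) := h2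
      _ = Real.exp (-φ p.1) * ‖fderiv ℝ (curv φ) p.1‖ := mul_comm _ _
      _ ≤ C * |curv φ p.1| ^ (39 / 40 : ℝ) := h1

end Pool.Agent.Y117.EG
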